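import Pool.Agent.Helper55.RG.Spec

/-!
# DER: elements outside of the algebraically closed field `κ` are moved by derivations
-/

set_option autoImplicit false
set_option linter.all false

open Polynomial

namespace Pool.Agent.Helper30.RG.DER

/-- Field extensions in characteristic zero are formally smooth. -/
theorem smooth_of_charZero (E Ω : Type) [Field E] [CharZero E] [Field Ω] [Algebra E Ω] :
    Algebra.FormallySmooth E Ω := by
  obtain ⟨s, hs⟩ := exists_isTranscendenceBasis E Ω
  haveI halg : Algebra.IsAlgebraic (IntermediateField.adjoin E (Set.range ((↑) : s → Ω))) Ω :=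
    hs.isAlgebraic_field
  haveI : Algebra.IsSeparable (IntermediateField.adjoin E (Set.range ((↑) : s → Ω))) Ω :=
    inferInstance
  exact Algebra.FormallySmooth.of_algebraicIndependent_of_isSeparable hs.1

/-- A copy of the dual numbers, with its ring structure only. -/
def TS (Ω : Type) : Type := TrivSqZeroExt Ω Ω

noncomputable instance (Ω : Type) [Field Ω] : CommRing (TS Ω) :=
  inferInstanceAs (CommRing (TrivSqZeroExt Ω Ω))

/-- The projection. -/
noncomputable def fstR (Ω : Type) [Field Ω] : TS Ω →+* Ω :=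
  ((TrivSqZeroExt.fstHom Ω Ω Ω : TrivSqZeroExt Ω Ω →ₐ[Ω] Ω) : TrivSqZeroExt Ω Ω →+* Ω)

/-- The inclusion. -/
noncomputable def inlR (Ω : Type) [Field Ω] : Ω →+* TS Ω :=
  TrivSqZeroExt.inlHom Ω Ω

/-- The second component. -/
def sndR (Ω : Type) [Field Ω] : TS Ω → Ω := fun x => TrivSqZeroExt.snd x

theorem snd_mul' (Ω : Type) [Field Ω] (x y : TrivSqZeroExt Ω Ω) :
    (x * y).snd = x.fst * y.snd + y.fst * x.snd := by
  rw [TrivSqZeroExt.snd_mul]
  simp only [smul_eq_mul, MulOpposite.smul_eq_mul_unop, MulOpposite.unop_op]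
  ring

theorem sndR_mul (Ω : Type) [Field Ω] (x y : TS Ω) :
    sndR Ω (x * y) = fstR Ω x * sndR Ω y + fstR Ω y * sndR Ω x :=
  snd_mul' Ω x y

theorem sndR_add (Ω : Type) [Field Ω] (x y : TS Ω) :
    sndR Ω (x + y) = sndR Ω x + sndR Ω y := rfl

theorem fstR_surj (Ω : Type) [Field Ω] : Function.Surjective (fstR Ω) :=
  fun x => ⟨inlR Ω x, rfl⟩

theorem fstR_inl (Ω : Type) [Field Ω] (x : Ω) : fstR Ω (inlR Ω x) = x := rfl

theorem sndR_inl (Ω : Type) [Field Ω] (x : Ω) : sndR Ω (inlR Ω x) = 0 := rfl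

theorem ker_sq (Ω : Type) [Field Ω] : IsNilpotent (RingHom.ker (fstR Ω)) := by
  refine ⟨2, ?_⟩
  rw [pow_two, Submodule.zero_eq_bot, eq_bot_iff, Ideal.mul_le]
  intro r hr s hs
  rw [RingHom.mem_ker] at hr hs
  rw [Ideal.mem_bot]
  have h1 : fstR Ω (r * s) = 0 := by rw [map_mul, hr, zero_mul]
  have h2 : sndR Ω (r * s) = 0 := by rw [sndR_mul, hr, hs]; ring
  exact TrivSqZeroExt.ext h1 h2

theorem main : Pool.Agent.Helper55.RG.S_DER := by
  intro κ Ω _ _ _ _ _ c hc
  have htr : Transcendental κ c := by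
    intro hal
    apply hc
    have hint : IsIntegral κ c := hal.isIntegral
    have h1 := minpoly.irreducible hint
    have h2 := IsAlgClosed.degree_eq_one_of_irreducible κ h1
    have h3 := minpoly.mem_range_of_degree_eq_one κ c h2
    exact h3
  letI algR : Algebra κ[X] Ω := (aeval c).toRingHom.toAlgebra
  have halgR : ∀ p : κ[X], algebraMap κ[X] Ω p = aeval c p := fun p => rfl
  haveI : IsScalarTower κ κ[X] Ω := IsScalarTower.of_algebraMap_eq (fun x => by
    rw [halgR]; simp)
  haveI : FaithfulSMul κ[X] Ω := by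
    rw [faithfulSMul_iff_algebraMap_injective]
    intro p q hpq
    rw [halgR, halgR] at hpq
    exact (transcendental_iff_injective.mp htr) hpq
  letI : Algebra (FractionRing κ[X]) Ω := FractionRing.liftAlgebra κ[X] Ω
  haveI : IsScalarTower κ[X] (FractionRing κ[X]) Ω := FractionRing.isScalarTower_liftAlgebra κ[X] Ω
  haveI : CharZero (FractionRing κ[X]) := inferInstance
  haveI : Algebra.FormallySmooth (FractionRing κ[X]) Ω := smooth_of_charZero _ _
  haveI : Algebra.FormallySmooth κ[X] (FractionRing κ[X]) :=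
    .of_isLocalization (nonZeroDivisors _)
  haveI : Algebra.FormallySmooth κ[X] Ω := .comp _ (FractionRing κ[X]) _
  let e : TS Ω := (TrivSqZeroExt.inr (1 : Ω) : TrivSqZeroExt Ω Ω)
  have he1 : fstR Ω e = 0 := rfl
  have he2 : sndR Ω e = 1 := rfl
  let ρ : κ[X] →+* TS Ω := Polynomial.eval₂RingHom ((inlR Ω).comp (algebraMap κ Ω)) (inlR Ω c + e)
  letI algT : Algebra κ[X] (TS Ω) := ρ.toAlgebra
  have halgT : ∀ p : κ[X], algebraMap κ[X] (TS Ω) p = ρ p := fun p => rfl
  have hfst : ∀ p : κ[X], fstR Ω (ρ p) = aeval c p := by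
    have : (fstR Ω).comp ρ = (aeval c : κ[X] →ₐ[κ] Ω).toRingHom := by
      apply Polynomial.ringHom_ext
      · intro a
        simp [ρ, fstR_inl]
      · simp [ρ, fstR_inl, he1]
    intro p
    exact congrArg (fun f : κ[X] →+* Ω => f p) this
  have hcomm : ∀ p : κ[X], fstR Ω (algebraMap κ[X] (TS Ω) p) = algebraMap κ[X] Ω p := by
    intro p
    rw [halgT, halgR, hfst]
  let g : TS Ω →ₐ[κ[X]] Ω := { fstR Ω with commutes' := hcomm }
  have hg : Function.Surjective g := fstR_surj Ω
  have hker : IsNilpotent (RingHom.ker (g : TS Ω →+* Ω)) := ker_sq Ω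
  let σ : Ω →ₐ[κ[X]] TS Ω := Algebra.FormallySmooth.liftOfSurjective (AlgHom.id κ[X] Ω) g hg hker
  have hσ : ∀ x : Ω, fstR Ω (σ x) = x := fun x =>
    Algebra.FormallySmooth.liftOfSurjective_apply (AlgHom.id κ[X] Ω) g hg hker x
  have hσa : ∀ p : κ[X], σ (aeval c p) = ρ p := fun p => by
    rw [← halgR, AlgHom.commutes, halgT]
  have hσκ : ∀ a : κ, σ (algebraMap κ Ω a) = inlR Ω (algebraMap κ Ω a) := fun a => by
    have := hσa (C a)
    rw [aeval_C] at this
    rw [this]
    simp [ρ]
  have hσc : σ c = inlR Ω c + e := by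
    have := hσa X
    rw [aeval_X] at this
    rw [this]
    simp [ρ]
  refine ⟨Derivation.mk' { toFun := fun x => sndR Ω (σ x), map_add' := ?_, map_smul' := ?_ } ?_, ?_⟩
  · intro x y
    rw [map_add, sndR_add]
  · intro a x
    rw [Algebra.smul_def, map_mul, hσκ, sndR_mul, fstR_inl, sndR_inl, mul_zero, add_zero,
      RingHom.id_apply, Algebra.smul_def]
  · intro x y
    simp only [LinearMap.coe_mk, AddHom.coe_mk, smul_eq_mul]
    rw [map_mul, sndR_mul, hσ, hσ]
  · rw [Derivation.coe_mk']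
    simp only [LinearMap.coe_mk, AddHom.coe_mk]
    rw [hσc, sndR_add, sndR_inl, he2, zero_add]
    exact one_ne_zero

end Pool.Agent.Helper30.RG.DER
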