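import Pool.Agent.Helper55.RG.Spec

/-!
# GAC: ultrapowers of algebraically closed fields are algebraically closed
-/

set_option autoImplicit false
set_option linter.all false

open Polynomial Pool.Agent.Helper55.RG

namespace Pool.Agent.Helper30.RG.GAC

theorem main : Pool.Agent.Helper55.RG.S_GAC := by
  intro κ _ _
  apply IsAlgClosed.of_exists_root
  intro p hmon hirr
  have hn : 0 < p.natDegree := hirr.natDegree_pos
  choose r hr using fun k : ℕ => UP.mk_surj (κ := κ) (p.coeff k)
  have hroot : ∀ i : ℕ, ∃ x : κ, x ^ p.natDegree +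
      ∑ k ∈ Finset.range p.natDegree, r k i * x ^ k = 0 := by
    intro i
    let q : κ[X] := X ^ p.natDegree + ∑ k ∈ Finset.range p.natDegree, C (r k i) * X ^ k
    have hdeg : (∑ k ∈ Finset.range p.natDegree, C (r k i) * X ^ k : κ[X]).degree
        < p.natDegree := by
      rw [Polynomial.degree_lt_iff_coeff_zero]
      intro m hm
      rw [finset_sum_coeff]
      apply Finset.sum_eq_zero
      intro k hk
      rw [coeff_C_mul_X_pow, if_neg]
      have := Finset.mem_range.mp hk
      omega
    have hq : q.degree = p.natDegree := by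
      change (X ^ p.natDegree + _ : κ[X]).degree = _
      rw [degree_add_eq_left_of_degree_lt]
      · rw [degree_X_pow]
      · rw [degree_X_pow]; exact hdeg
    obtain ⟨x, hx⟩ := IsAlgClosed.exists_root q (by
      rw [hq]
      exact_mod_cast hn.ne')
    refine ⟨x, ?_⟩
    have := hx
    rw [IsRoot.def] at this
    simpa [q, eval_finset_sum] using this
  choose x hx using hroot
  refine ⟨UP.mk κ x, ?_⟩
  rw [eval_eq_sum_range, Finset.sum_range_succ, hmon.coeff_natDegree, one_mul]
  have h1 : (∑ k ∈ Finset.range p.natDegree, p.coeff k * UP.mk κ x ^ k) + UP.mk κ x ^ p.natDegree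
      = UP.mk κ ((∑ k ∈ Finset.range p.natDegree, r k * x ^ k) + x ^ p.natDegree) := by
    rw [map_add, map_sum, map_pow]
    congr 1
    apply Finset.sum_congr rfl
    intro k _
    rw [map_mul, map_pow, hr]
  rw [h1]
  have h2 : (∑ k ∈ Finset.range p.natDegree, r k * x ^ k) + x ^ p.natDegree = 0 := by
    funext i
    have := hx i
    rw [add_comm] at this
    simpa using this
  rw [h2, map_zero]

end Pool.Agent.Helper30.RG.GAC
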