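import Pool.Agent.Helper55.RG.Spec6
import Pool.Agent.Helper47.RG.KUM

/-!
# Part KAP of the RG project: irreducibility and independence over an extension of constants (helper30)
-/

set_option autoImplicit false
set_option linter.all false

open Polynomial

namespace Pool.Agent.Helper30.RG

open Pool.Agent.TH115.GD Pool.Agent.R939.EI Pool.Agent.Helper55.TT Pool.Agent.Helper55.UV
open Pool.Agent.Helper55.RG

section

variable {k₁ κ k' : Type} [Field k₁] [CharZero k₁] [Field κ] [Field k'] [Algebra k₁ κ]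
  [Algebra k₁ k'] [Algebra κ k'] [IsScalarTower k₁ κ k'] [IsSepClosure k₁ k'] [IsSepClosure κ k']

omit [CharZero k₁] in
lemma aeval_gal {D : k₁[X]} {θ : k'} (σ : k' ≃ₐ[k₁] k') (h : aeval θ D = 0) : aeval (σ θ) D = 0 := by
  have h5 : aeval (σ θ) D = σ (aeval θ D) := Polynomial.aeval_algHom_apply σ.toAlgHom θ D
  rw [h5, h, map_zero]

/-- the number of roots of a polynomial which is separable -/
lemma card_rootSet_of_irred {D : k₁[X]} (hD : Irreducible D) :
    (D.rootSet k').ncard = D.natDegree := by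
  haveI : IsSepClosed k' := IsSepClosure.sep_closed k₁
  have hsep : D.Separable := hD.separable
  have hs : (D.map (algebraMap k₁ k')).Splits := IsSepClosed.splits_of_separable _ (hsep.map)
  rw [Set.ncard_eq_toFinset_card', Set.toFinset_card]
  exact card_rootSet_eq_natDegree hsep hs

lemma irred_map {M : Set k'} {D : k₁[X]}
    (hM : ∀ σ : k' ≃ₐ[k₁] k', ∃ τ : k' ≃ₐ[κ] k', ∀ x ∈ M, τ x = σ x)
    (hDM : ∀ θ : k', aeval θ D = 0 → θ ∈ M) (hD : Irreducible D) :
    Irreducible (D.map (algebraMap k₁ κ)) := by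
  haveI : IsSepClosed k' := IsSepClosure.sep_closed k₁
  have hsep : D.Separable := hD.separable
  haveI : IsGalois k₁ k' := inferInstance
  haveI : IsGalois κ k' := inferInstance
  obtain ⟨θ, hθ⟩ : ∃ θ : k', aeval θ D = 0 :=
    IsSepClosed.exists_aeval_eq_zero k' D hD.degree_pos.ne' hsep
  have hint : IsIntegral κ θ := Algebra.IsIntegral.isIntegral θ
  have hmirr := minpoly.irreducible hint
  have hm0 : minpoly κ θ ≠ 0 := minpoly.ne_zero hint
  have hdvd : minpoly κ θ ∣ D.map (algebraMap k₁ κ) := by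
    apply minpoly.dvd
    rw [aeval_map_algebraMap, hθ]
  have hD0 : D.map (algebraMap k₁ κ) ≠ 0 := (Polynomial.map_ne_zero_iff (algebraMap k₁ κ).injective).2 hD.ne_zero
  have hsub : D.rootSet k' ⊆ (minpoly κ θ).rootSet k' := by
    intro θ' hθ'
    have h1 : aeval θ' D = 0 := ((mem_rootSet).1 hθ').2
    have hconj : IsConjRoot k₁ θ θ' := by
      unfold IsConjRoot
      have e1 := minpoly.eq_of_irreducible hD hθ
      have e2 := minpoly.eq_of_irreducible hD h1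
      rw [← e1, ← e2]
    obtain ⟨σ, hσ⟩ := hconj.exists_algEquiv
    obtain ⟨τ, hτ⟩ := hM σ⁻¹
    have h2 : τ θ = θ' := by
      rw [hτ θ (hDM θ hθ), ← hσ]
      exact AlgEquiv.symm_apply_apply σ θ'
    rw [mem_rootSet]
    refine ⟨hm0, ?_⟩
    rw [← h2]
    have h5 : aeval (τ θ) (minpoly κ θ) = τ (aeval θ (minpoly κ θ)) :=
      Polynomial.aeval_algHom_apply τ.toAlgHom θ _
    rw [h5, minpoly.aeval, map_zero]
  have hle : D.natDegree ≤ (minpoly κ θ).natDegree := by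
    rw [← card_rootSet_of_irred (k' := k') hD]
    exact (Set.ncard_le_ncard hsub (rootSet_finite _ _)).trans (ncard_rootSet_le _ k')
  obtain ⟨c, hc⟩ := hdvd
  have hc0 : c ≠ 0 := by
    rintro rfl
    rw [mul_zero] at hc
    exact hD0 hc
  have hdeg : (D.map (algebraMap k₁ κ)).natDegree = (minpoly κ θ).natDegree + c.natDegree := by
    rw [hc, natDegree_mul hm0 hc0]
  rw [natDegree_map] at hdeg
  have hcd : c.natDegree = 0 := by omega
  have hcu : IsUnit c := by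
    rw [Polynomial.isUnit_iff_degree_eq_zero, Polynomial.degree_eq_natDegree hc0, hcd]
    rfl
  rw [hc]
  exact (irreducible_mul_isUnit hcu).2 hmirr

open scoped Classical in
theorem indep_map {M : Set k'} {D s : k₁[X]} (hMf : M.Finite)
    (hM : ∀ σ : k' ≃ₐ[k₁] k', ∃ τ : k' ≃ₐ[κ] k', ∀ x ∈ M, τ x = σ x)
    (hDM : ∀ θ : k', aeval θ D = 0 → θ ∈ M) (hsM : ∀ r : k', aeval r s = 0 → r ∈ M)
    (hwM : ∀ θ r w : k', aeval θ D = 0 → aeval r s = 0 → w ^ 2 = θ - r → w ∈ M)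
    (hs : s ≠ 0) (hD : Irreducible D) (hind : IndepAt D s) :
    IndepAt (D.map (algebraMap k₁ κ)) (s.map (algebraMap k₁ κ)) := by
  intro u S hu hS hSsq hSs hDS hsq
  haveI : IsSepClosed k' := IsSepClosure.sep_closed k₁
  haveI : IsGalois k₁ k' := inferInstance
  haveI : IsGalois κ k' := inferInstance
  haveI : CharZero k' := charZero_of_injective_algebraMap (algebraMap k₁ k').injective
  haveI : CharZero κ := charZero_of_injective_algebraMap (algebraMap k₁ κ).injective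
  have hDκ : Irreducible (D.map (algebraMap k₁ κ)) := irred_map hM hDM hD
  have hsep : D.Separable := hD.separable
  obtain ⟨θ, hθ⟩ : ∃ θ : k', aeval θ D = 0 :=
    IsSepClosed.exists_aeval_eq_zero k' D hD.degree_pos.ne' hsep
  have hθκ : aeval θ (D.map (algebraMap k₁ κ)) = 0 := by rw [aeval_map_algebraMap, hθ]
  -- the stable part of `M`
  set M' : Set k' := {x | aeval x D = 0 ∨ aeval x s = 0 ∨
    ∃ θ r : k', aeval θ D = 0 ∧ aeval r s = 0 ∧ x ^ 2 = θ - r} with hM'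
  have hM'M : M' ⊆ M := by
    rintro x (h | h | ⟨θ, r, h1, h2, h3⟩)
    · exact hDM x h
    · exact hsM x h
    · exact hwM θ r x h1 h2 h3
  have hM's : ∀ σ : k' ≃ₐ[k₁] k', ∀ x ∈ M', σ x ∈ M' := by
    rintro σ x (h | h | ⟨θ, r, h1, h2, h3⟩)
    · exact Or.inl (aeval_gal σ h)
    · exact Or.inr (Or.inl (aeval_gal σ h))
    · exact Or.inr (Or.inr ⟨σ θ, σ r, aeval_gal σ h1, aeval_gal σ h2, by
        rw [← map_pow, h3, map_sub]⟩)
  have hθM : θ ∈ M' := Or.inl hθ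
  choose T hT0 using hM
  have hT : ∀ σ : k' ≃ₐ[k₁] k', ∀ x ∈ M', T σ x = σ x := fun σ x hx => hT0 σ x (hM'M hx)
  -- the roots of `S`
  have hS0 : S ≠ 0 := hS.ne_zero
  have hSsep : S.Separable := PerfectField.separable_iff_squarefree.2 hSsq
  have hSspl : (S.map (algebraMap κ k')).Splits := IsSepClosed.splits_of_separable _ hSsep.map
  have hS'0 : S.map (algebraMap κ k') ≠ 0 :=
    (Polynomial.map_ne_zero_iff (algebraMap κ k').injective).2 hS0
  set R : Finset k' := (S.map (algebraMap κ k')).roots.toFinset with hR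
  have hRmem : ∀ r, r ∈ R ↔ aeval r S = 0 := by
    intro r
    rw [hR, Multiset.mem_toFinset, mem_roots hS'0, IsRoot.def, eval_map_algebraMap]
  have hRs : ∀ r ∈ R, aeval r s = 0 := by
    intro r hr
    obtain ⟨c, hc⟩ := hSs
    have h1 : aeval r (s.map (algebraMap k₁ κ)) = 0 := by
      rw [hc, map_mul, (hRmem r).1 hr, zero_mul]
    rwa [aeval_map_algebraMap] at h1
  have hRM : ∀ r ∈ R, r ∈ M' := fun r hr => Or.inr (Or.inl (hRs r hr))
  have hRst : ∀ (σ : k' ≃ₐ[k₁] k'), ∀ r ∈ R, σ r ∈ R := by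
    intro σ r hr
    rw [← hT σ r (hRM r hr), hRmem]
    exact aeval_gal (T σ) ((hRmem r).1 hr)
  have hSprod : S.map (algebraMap κ k') = ∏ r ∈ R, (X - C r) := by
    have h1 := hSspl.eq_prod_roots
    have h2 : (S.map (algebraMap κ k')).leadingCoeff = 1 := (hS.map _).leadingCoeff
    have h3 : (S.map (algebraMap κ k')).roots.Nodup := nodup_roots hSsep.map
    rw [h2, C_1, one_mul] at h1
    rw [h1, hR, Finset.prod, Multiset.toFinset_val, h3.dedup]
  obtain ⟨S₁, hS₁, hS₁p⟩ := desc (k := k₁) R hRst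
  have hSS : S₁.map (algebraMap k₁ κ) = S := by
    apply Polynomial.map_injective _ (algebraMap κ k').injective
    rw [Polynomial.map_map, ← IsScalarTower.algebraMap_eq, hS₁p, hSprod]
  -- square roots
  haveI : NeZero ((2 : ℕ) : k') := ⟨by norm_num⟩
  have hw : ∀ r : k', ∃ w : k', w ^ 2 = θ - r := fun r => IsSepClosed.exists_pow_nat_eq (θ - r) 2
  choose w hw using hw
  set P : k' := ∏ r ∈ R, w r with hP
  have hSθ : aeval θ S = P ^ 2 := by
    rw [← eval_map_algebraMap, hSprod, eval_prod, hP, ← Finset.prod_pow]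
    refine Finset.prod_congr rfl fun r _ => ?_
    rw [eval_sub, eval_X, eval_C, hw]
  have hSθ0 : aeval θ S ≠ 0 := by
    rwa [Ne, ← dvd_iff_aeval hDκ hθκ]
  have hP0 : P ≠ 0 := by
    intro h
    rw [hSθ, h] at hSθ0
    exact hSθ0 (by simp)
  have hwM' : ∀ r ∈ R, w r ∈ M' := fun r hr => Or.inr (Or.inr ⟨θ, r, hθ, hRs r hr, hw r⟩)
  obtain ⟨z, hz⟩ := hsq
  set v : k' := aeval θ z with hv
  have hv2 : v ^ 2 = algebraMap κ k' u * P ^ 2 := by
    rw [dvd_iff_aeval hDκ hθκ, map_sub, map_pow, map_mul, aeval_C, hSθ, sub_eq_zero] at hz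
    exact hz
  have hu' : algebraMap κ k' u ≠ 0 := (_root_.map_ne_zero _).2 hu
  set ρ : k' := v / P with hρ
  have hρ2 : ρ ^ 2 = algebraMap κ k' u := by
    rw [hρ, div_pow, hv2, mul_div_assoc, div_self (pow_ne_zero 2 hP0), mul_one]
  have hρ0 : ρ ≠ 0 := by
    intro h
    rw [h] at hρ2
    exact hu' (by rw [← hρ2]; simp)
  have hfixP : ∀ τ : k' ≃ₐ[κ] k', (∀ x ∈ M', τ x = x) → τ ρ = ρ := by
    intro τ hτ
    have h1 : τ v = v := by
      have h5 : aeval (τ θ) z = τ (aeval θ z) := Polynomial.aeval_algHom_apply τ.toAlgHom θ z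
      rw [hv, ← h5, hτ θ hθM]
    have h2 : τ P = P := by
      rw [hP, map_prod]
      exact Finset.prod_congr rfl fun r hr => hτ _ (hwM' r hr)
    rw [hρ, map_div₀, h1, h2]
  have hwd : ∀ τ τ' : k' ≃ₐ[κ] k', (∀ x ∈ M', τ x = τ' x) → τ ρ = τ' ρ := by
    intro τ τ' h
    have h1 : (τ'⁻¹ * τ) ρ = ρ := hfixP (τ'⁻¹ * τ) (fun x hx => by
      rw [AlgEquiv.mul_apply, h x hx]
      exact AlgEquiv.symm_apply_apply τ' x)
    have h2 := congrArg τ' h1
    rw [AlgEquiv.mul_apply] at h2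
    have h3 : τ' (τ'⁻¹ (τ ρ)) = τ ρ := AlgEquiv.apply_symm_apply τ' _
    rw [h3] at h2
    exact h2
  have hpm : ∀ τ : k' ≃ₐ[κ] k', τ ρ = ρ ∨ τ ρ = -ρ := by
    intro τ
    apply sq_eq_sq_iff_eq_or_eq_neg.1
    rw [← map_pow, hρ2, τ.commutes]
  set χ : (k' ≃ₐ[k₁] k') → k' := fun σ => T σ ρ / ρ with hχ
  have hχρ : ∀ σ, T σ ρ = χ σ * ρ := fun σ => by rw [hχ]; exact (div_mul_cancel₀ _ hρ0).symm
  have hχpm : ∀ σ, χ σ = 1 ∨ χ σ = -1 := by
    intro σ
    rcases hpm (T σ) with h | h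
    · left; rw [hχ]; show T σ ρ / ρ = 1; rw [h, div_self hρ0]
    · right; rw [hχ]; show T σ ρ / ρ = -1; rw [h, neg_div, div_self hρ0]
  have hχwd : ∀ (σ : k' ≃ₐ[k₁] k') (τ : k' ≃ₐ[κ] k'), (∀ x ∈ M', τ x = σ x) → τ ρ = χ σ * ρ := by
    intro σ τ h
    rw [← hχρ]
    exact hwd _ _ (fun x hx => by rw [h x hx, hT σ x hx])
  have hτpm : ∀ (τ : k' ≃ₐ[κ] k') (σ : k' ≃ₐ[k₁] k'), τ (χ σ) = χ σ := by
    intro τ σ
    rcases hχpm σ with h | h
    · rw [h, map_one]
    · rw [h, map_neg, map_one]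
  have hχmul : ∀ σ τ, χ (σ * τ) = χ σ * χ τ := by
    intro σ τ
    have h1 := hχwd (σ * τ) (T σ * T τ) (fun x hx => by
      rw [AlgEquiv.mul_apply, AlgEquiv.mul_apply, hT τ x hx, hT σ _ (hM's τ x hx)])
    rw [AlgEquiv.mul_apply, hχρ τ, map_mul, hτpm, hχρ σ] at h1
    have h2 : χ (σ * τ) * ρ = (χ σ * χ τ) * ρ := by rw [← h1]; ring
    exact mul_right_cancel₀ hρ0 h2
  obtain ⟨y, hy0, hy2, hy⟩ := Pool.Agent.Helper47.RG.KUM.main k₁ k' ⊥ χ hχpm
    (fun σ _ τ _ => hχmul σ τ) M' (hMf.subset hM'M) (fun σ _ h => by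
      have h1 := hχwd σ 1 (fun x hx => by rw [h x hx]; rfl)
      rw [AlgEquiv.one_apply] at h1
      exact (mul_right_cancel₀ hρ0 ((one_mul ρ).trans h1)).symm)
  have hy' : ∀ σ : k' ≃ₐ[k₁] k', σ y = χ σ * y := fun σ => hy σ (by
    rw [IntermediateField.fixingSubgroup_bot]; trivial)
  obtain ⟨u₁, hu₁⟩ := IntermediateField.mem_bot.1 hy2
  -- restriction of scalars
  have hres : ∀ τ : k' ≃ₐ[κ] k', τ ρ = χ (τ.restrictScalars k₁) * ρ := fun τ =>
    hχwd (τ.restrictScalars k₁) τ (fun x _ => rfl)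
  have hresy : ∀ τ : k' ≃ₐ[κ] k', τ y = χ (τ.restrictScalars k₁) * y := fun τ =>
    hy' (τ.restrictScalars k₁)
  have hχ0 : ∀ σ, χ σ ≠ 0 := by
    intro σ h
    rcases hχpm σ with h1 | h1 <;> rw [h] at h1
    · exact zero_ne_one h1
    · exact one_ne_zero (neg_eq_zero.1 h1.symm)
  obtain ⟨z0, hz0⟩ := mem_of_stab (k := κ) (θ := (0 : k')) (x := ρ / y) (fun τ _ => by
    rw [map_div₀, hres, hresy, mul_div_mul_left _ _ (hχ0 _)])
  obtain ⟨e, he⟩ : ∃ e : κ, algebraMap κ k' e = ρ / y := ⟨z0.coeff 0, by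
    rw [← hz0, Polynomial.aeval_def, Polynomial.eval₂_at_zero]⟩
  have hθy : ∀ σ : k' ≃ₐ[k₁] k', σ θ = θ → σ (P * y) = P * y := by
    intro σ hσ
    have h1 : σ P = T σ P := by
      rw [hP, map_prod, map_prod]
      exact Finset.prod_congr rfl fun r hr => (hT σ _ (hwM' r hr)).symm
    have h2 : T σ y = σ y := by
      rw [hresy, hy']
      congr 1
      have h3 := hres (T σ)
      rw [hχρ] at h3
      exact (mul_right_cancel₀ hρ0 h3).symm
    have h4 : T σ v = v := by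
      have h5 : aeval (T σ θ) z = T σ (aeval θ z) :=
        Polynomial.aeval_algHom_apply (T σ).toAlgHom θ z
      rw [hv, ← h5, hT σ θ hθM, hσ]
    have h5 : P * y = v / algebraMap κ k' e := by
      rw [he, eq_div_iff (div_ne_zero hρ0 hy0), hρ]
      field_simp
    rw [map_mul, h1, ← h2, ← map_mul, h5, map_div₀, h4, (T σ).commutes]
  obtain ⟨z₁, hz₁⟩ := mem_of_stab (k := k₁) (θ := θ) (x := P * y) hθy
  have hu₁0 : u₁ ≠ 0 := by
    rintro rfl
    rw [map_zero] at hu₁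
    exact hy0 (by simpa using hu₁.symm)
  have hS₁θ : aeval θ S₁ = P ^ 2 := by
    rw [← hSθ, ← hSS, aeval_map_algebraMap]
  have hS₁sq : SqMod D (C u₁ * S₁) := by
    refine ⟨z₁, ?_⟩
    rw [dvd_iff_aeval hD hθ, map_sub, map_pow, map_mul, aeval_C, hz₁, hS₁θ, hu₁]
    ring
  have hS₁sqf : Squarefree S₁ := by
    have h1 : (S₁.map (algebraMap k₁ κ)).Separable := by rw [hSS]; exact hSsep
    exact ((Polynomial.separable_map (algebraMap k₁ κ)).1 h1).squarefree
  have hS₁s : S₁ ∣ s := by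
    rw [← hSS] at hSs
    exact (Polynomial.map_dvd_map' (algebraMap k₁ κ)).1 hSs
  have hDS₁ : ¬ D ∣ S₁ := by
    intro h
    apply hDS
    rw [← hSS]
    exact (Polynomial.map_dvd_map' (algebraMap k₁ κ)).2 h
  obtain ⟨hS1, a, ha⟩ := hind u₁ S₁ hu₁0 hS₁ hS₁sqf hS₁s hDS₁ hS₁sq
  refine ⟨by rw [← hSS, hS1, Polynomial.map_one], e * algebraMap k₁ κ a, ?_⟩
  apply (algebraMap κ k').injective
  rw [← hρ2, map_mul, map_mul, ← IsScalarTower.algebraMap_apply, he]
  have h6 : algebraMap k₁ k' a * algebraMap k₁ k' a = y ^ 2 := by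
    rw [← map_mul, ← ha, hu₁]
  have h7 : ρ / y * algebraMap k₁ k' a * (ρ / y * algebraMap k₁ k' a) =
      (ρ / y) ^ 2 * (algebraMap k₁ k' a * algebraMap k₁ k' a) := by ring
  rw [h7, h6, ← mul_pow, div_mul_cancel₀ _ hy0]

end

/-- part KAP -/
theorem kap : S_KAP := by
  intro k₁ κ k' _ _ _ _ _ _ _ _ _ _ M D s hMf hM hDM hsM hwM hs hD hind
  exact ⟨irred_map hM hDM hD, indep_map hMf hM hDM hsM hwM hs hD hind⟩

end Pool.Agent.Helper30.RG
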